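import Mathlib

/-! # D-type latin squares of order `2 ^ k` (MP_2f0703_co): conjugate of a multiplication by a partial translation -/

set_option autoImplicit false

namespace Pool.Agent.H72.PT

variable {F : Type} [Field F]

/-- the span of `a, a ^ 2, a ^ 3` over the prime field -/
def V (a x : F) : Prop := ∃ p q r : ℤ, x = p * a + q * a ^ 2 + r * a ^ 3

theorem V_add {a x y : F} (hx : V a x) (hy : V a y) : V a (x + y) := by
  obtain ⟨p, q, r, rfl⟩ := hx
  obtain ⟨p', q', r', rfl⟩ := hy
  exact ⟨p + p', q + q', r + r', by push_cast; ring⟩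

theorem V_add_iff (h2 : (2 : F) = 0) {a x d : F} (hd : V a d) : V a (x + d) ↔ V a x := by
  constructor
  · intro h
    have h1 := V_add h hd
    have h3 : x + d + d = x := by linear_combination d * h2
    rwa [h3] at h1
  · intro h
    exact V_add h hd

/-- the constant -/
def cc (a : F) : F := a + a ^ 3

theorem V_cc (a : F) : V a (cc a) := ⟨1, 0, 1, by unfold cc; push_cast; ring⟩

open Classical in
/-- the involution -/
noncomputable def th (a x : F) : F := if V a x then x + cc a else x

theorem th_th (h2 : (2 : F) = 0) (a x : F) : th a (th a x) = x := by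
  unfold th
  by_cases h : V a x
  · rw [if_pos h, if_pos ((V_add_iff h2 (V_cc a)).2 h)]
    linear_combination cc a * h2
  · rw [if_neg h, if_neg h]

theorem th_inj (h2 : (2 : F) = 0) {a x y : F} (h : th a x = th a y) : x = y := by
  rw [← th_th h2 a x, h, th_th h2]

/-- the permutation -/
noncomputable def f (a x : F) : F := th a (a * th a x)

theorem f_iter (h2 : (2 : F) = 0) (a : F) (n : ℕ) (x : F) : (f a)^[n] x = th a (a ^ n * th a x) := by
  induction n with
  | zero => simp [th_th h2]
  | succ n ih =>
    rw [Function.iterate_succ_apply', ih]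
    unfold f
    rw [th_th h2]
    congr 1
    ring

theorem f_inj (h2 : (2 : F) = 0) {a : F} (ha : a ≠ 0) {x y : F} (h : f a x = f a y) : x = y :=
  th_inj h2 (mul_left_cancel₀ ha (th_inj h2 h))

theorem aux (h2 : (2 : F) = 0) {a b w : F} (hb : b + 1 ≠ 0) (hw : (b + 1) * w = cc a) (h1 : V a w) (h3 : V a (b * w))
    {z z' : F} (h : th a (b * z) + th a z = th a (b * z') + th a z') : z = z' := by
  have key : ∀ t : F, V a (b * (t + w)) ↔ V a (b * t) := by
    intro t
    rw [mul_add]
    exact V_add_iff h2 h3
  have key2 : ∀ t : F, V a (t + w) ↔ V a t := fun t => V_add_iff h2 h1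
  have hz : z' = z + w → False ∨ z = z' := by
    intro h4
    right
    rw [h4] at h
    unfold th at h
    have e1 := key z
    have e2 := key2 z
    by_cases p1 : V a (b * z) <;> by_cases p2 : V a z
    · rw [if_pos p1, if_pos p2, if_pos (e1.2 p1), if_pos (e2.2 p2)] at h
      have : (b + 1) * w = 0 := by linear_combination -h
      rcases mul_eq_zero.1 this with h5 | h5
      · exact absurd h5 hb
      · rw [h4, h5, add_zero]
    · rw [if_pos p1, if_neg p2, if_pos (e1.2 p1), if_neg (fun h => p2 (e2.1 h))] at h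
      have : (b + 1) * w = 0 := by linear_combination -h
      rcases mul_eq_zero.1 this with h5 | h5
      · exact absurd h5 hb
      · rw [h4, h5, add_zero]
    · rw [if_neg p1, if_pos p2, if_neg (fun h => p1 (e1.1 h)), if_pos (e2.2 p2)] at h
      have : (b + 1) * w = 0 := by linear_combination -h
      rcases mul_eq_zero.1 this with h5 | h5
      · exact absurd h5 hb
      · rw [h4, h5, add_zero]
    · rw [if_neg p1, if_neg p2, if_neg (fun h => p1 (e1.1 h)), if_neg (fun h => p2 (e2.1 h))] at h
      have : (b + 1) * w = 0 := by linear_combination -h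
      rcases mul_eq_zero.1 this with h5 | h5
      · exact absurd h5 hb
      · rw [h4, h5, add_zero]
  have fin0 : (b + 1) * (z + z') = 0 → z = z' := by
    intro h5
    rcases mul_eq_zero.1 h5 with h6 | h6
    · exact absurd h6 hb
    · linear_combination h6 - z' * h2
  have fin1 : (b + 1) * (z + z') = cc a → z = z' := by
    intro h5
    rw [← hw] at h5
    have h6 := mul_left_cancel₀ hb h5
    have h7 : z' = z + w := by linear_combination h6 - z * h2
    rcases hz h7 with h8 | h8
    · exact h8.elim
    · exact h8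
  unfold th at h
  by_cases p1 : V a (b * z) <;> by_cases p2 : V a z <;> by_cases p3 : V a (b * z') <;> by_cases p4 : V a z' <;>
    simp only [p1, p2, p3, p4, if_true, if_false] at h
  · exact fin0 (by linear_combination h + ((b + 1) * z' + (0) * cc a) * h2)
  · exact fin1 (by linear_combination h + ((b + 1) * z' + (-1) * cc a) * h2)
  · exact fin1 (by linear_combination h + ((b + 1) * z' + (-1) * cc a) * h2)
  · exact fin0 (by linear_combination h + ((b + 1) * z' + (-1) * cc a) * h2)
  · exact fin1 (by linear_combination h + ((b + 1) * z' + (0) * cc a) * h2)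
  · exact fin0 (by linear_combination h + ((b + 1) * z' + (0) * cc a) * h2)
  · exact fin0 (by linear_combination h + ((b + 1) * z' + (0) * cc a) * h2)
  · exact fin1 (by linear_combination h + ((b + 1) * z' + (-1) * cc a) * h2)
  · exact fin1 (by linear_combination h + ((b + 1) * z' + (0) * cc a) * h2)
  · exact fin0 (by linear_combination h + ((b + 1) * z' + (0) * cc a) * h2)
  · exact fin0 (by linear_combination h + ((b + 1) * z' + (0) * cc a) * h2)
  · exact fin1 (by linear_combination h + ((b + 1) * z' + (-1) * cc a) * h2)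
  · exact fin0 (by linear_combination h + ((b + 1) * z' + (1) * cc a) * h2)
  · exact fin1 (by linear_combination h + ((b + 1) * z' + (0) * cc a) * h2)
  · exact fin1 (by linear_combination h + ((b + 1) * z' + (0) * cc a) * h2)
  · exact fin0 (by linear_combination h + ((b + 1) * z' + (0) * cc a) * h2)

theorem add_one_ne (h2 : (2 : F) = 0) {a : F} (ha1 : a ≠ 1) : a + 1 ≠ 0 := by
  intro h
  apply ha1
  linear_combination h - h2

theorem f_add (h2 : (2 : F) = 0) {a : F} (ha1 : a ≠ 1) {x y : F} (h : f a x + x = f a y + y) : x = y := by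
  apply th_inj h2 (a := a)
  apply aux h2 (b := a) (w := a + a ^ 2) (add_one_ne h2 ha1)
  · unfold cc
    linear_combination a ^ 2 * h2
  · exact ⟨1, 1, 0, by push_cast; ring⟩
  · exact ⟨0, 1, 1, by push_cast; ring⟩
  · rw [th_th h2, th_th h2]
    exact h

theorem f_f (h2 : (2 : F) = 0) (a x : F) : f a (f a x) = th a (a ^ 2 * th a x) := by
  have := f_iter h2 a 2 x
  exact this

theorem f_add2 (h2 : (2 : F) = 0) {a : F} (ha1 : a ≠ 1) {x y : F} (h : f a (f a x) + x = f a (f a y) + y) : x = y := by
  rw [f_f h2, f_f h2] at h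
  apply th_inj h2 (a := a)
  apply aux h2 (b := a ^ 2) (w := a)
  · intro h0
    have h3 : (a + 1) * (a + 1) = 0 := by linear_combination h0 + a * h2
    rcases mul_eq_zero.1 h3 with h4 | h4
    · exact add_one_ne h2 ha1 h4
    · exact add_one_ne h2 ha1 h4
  · unfold cc
    ring
  · exact ⟨1, 0, 0, by push_cast; ring⟩
  · exact ⟨0, 0, 1, by push_cast; ring⟩
  · rw [th_th h2, th_th h2]
    exact h

theorem V_zero (a : F) : V a 0 := ⟨0, 0, 0, by push_cast; ring⟩

theorem th_zero (a : F) : th a 0 = cc a := by
  unfold th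
  rw [if_pos (V_zero a), zero_add]

theorem cc_ne (h2 : (2 : F) = 0) {a : F} (ha : a ≠ 0) (ha1 : a ≠ 1) : cc a ≠ 0 := by
  intro h
  have h3 : a * ((a + 1) * (a + 1)) = 0 := by
    unfold cc at h
    linear_combination h + a ^ 2 * h2
  rcases mul_eq_zero.1 h3 with h4 | h4
  · exact ha h4
  · rcases mul_eq_zero.1 h4 with h5 | h5
    · exact add_one_ne h2 ha1 h5
    · exact add_one_ne h2 ha1 h5

theorem f_fix (h2 : (2 : F) = 0) (a : F) : f a (cc a) = cc a := by
  have h : th a (cc a) = 0 := by rw [← th_zero, th_th h2]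
  unfold f
  rw [h, mul_zero, th_zero]

theorem f_zero_ne (h2 : (2 : F) = 0) {a : F} (ha : a ≠ 0) (ha1 : a ≠ 1) : f a 0 ≠ 0 := by
  intro h
  have h1 : th a (f a 0) = th a 0 := by rw [h]
  unfold f at h1
  rw [th_th h2, th_zero] at h1
  have h3 : (a + 1) * cc a = 0 := by linear_combination h1 + cc a * h2
  rcases mul_eq_zero.1 h3 with h4 | h4
  · exact add_one_ne h2 ha1 h4
  · exact cc_ne h2 ha ha1 h4

theorem reach (h2 : (2 : F) = 0) {a : F} (hgen : ∀ x : F, x ≠ 0 → ∃ n : ℕ, a ^ n = x) {x y : F} (hx : x ≠ cc a)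
    (hy : y ≠ cc a) : ∃ n : ℕ, (f a)^[n] x = y := by
  have h1 : th a x ≠ 0 := by
    intro h
    apply hx
    rw [← th_th h2 a x, h, th_zero]
  have h3 : th a y ≠ 0 := by
    intro h
    apply hy
    rw [← th_th h2 a y, h, th_zero]
  obtain ⟨n, hn⟩ := hgen (th a y * (th a x)⁻¹) (mul_ne_zero h3 (inv_ne_zero h1))
  refine ⟨n, ?_⟩
  rw [f_iter h2, hn, mul_assoc, inv_mul_cancel₀ h1, mul_one, th_th h2]

end Pool.Agent.H72.PT
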