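import Pool.Agent.H72.PT.Core

/-! # D-type latin squares of order `2 ^ k` (MP_2f0703_co): the square is not based on a group -/

set_option autoImplicit false

namespace Pool.Agent.H72.PT

variable {F : Type} [Field F]

theorem ex_notMem {F : Type} [Fintype F] (B : Finset F) (h : B.card < Fintype.card F) : ∃ x, x ∉ B := by
  by_contra h0
  push Not at h0
  have h1 : B = Finset.univ := Finset.eq_univ_iff_forall.2 h0
  rw [h1, Finset.card_univ] at h
  exact lt_irrefl _ h

/-- a map which is `x ↦ a x` outside a small set containing `0` gives no group table -/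
theorem not_group [Fintype F] [DecidableEq F] (h2 : (2 : F) = 0) {a : F} (g : F → F) (T : Finset F) (hT : T.card ≤ 12)
    (h64 : 64 ≤ Fintype.card F) (hlin : ∀ x, x ∉ T → g x = a * x) (h0 : g 0 ≠ 0) :
    ¬ ∃ (G : Type) (_ : Group G) (r c s : F ≃ G), ∀ i j : F, s (i + g (j - i)) = r i * c j := by
  rintro ⟨G, hG, r, c, s, H⟩
  obtain ⟨u, hu⟩ := ex_notMem T (by omega)
  have hc1 : ∀ d : F, (T.image (fun t => t + d)).card ≤ 12 := fun d => Finset.card_image_le.trans hT
  obtain ⟨w, hw⟩ := ex_notMem (T ∪ T.image (fun t => t + u)) (by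
    have h1 := Finset.card_union_le T (T.image (fun t => t + u))
    have h3 := hc1 u
    omega)
  obtain ⟨x, hx⟩ := ex_notMem ((T ∪ T.image (fun t => t + u)) ∪ (T.image (fun t => t + w) ∪ T.image (fun t => t + (u + w))))
    (by
      have h1 := Finset.card_union_le (T ∪ T.image (fun t => t + u)) (T.image (fun t => t + w) ∪ T.image (fun t => t + (u + w)))
      have h3 := Finset.card_union_le T (T.image (fun t => t + u))
      have h4 := Finset.card_union_le (T.image (fun t => t + w)) (T.image (fun t => t + (u + w)))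
      have h5 := hc1 u
      have h6 := hc1 w
      have h7 := hc1 (u + w)
      omega)
  simp only [Finset.mem_union, Finset.mem_image, not_or, not_exists, not_and] at hw hx
  obtain ⟨hw1, hw2⟩ := hw
  obtain ⟨⟨hx1, hx2⟩, hx3, hx4⟩ := hx
  have back : ∀ y d : F, (∀ t ∈ T, ¬ t + d = y) → g (y + d) = a * (y + d) := by
    intro y d h
    apply hlin
    intro h5
    exact h (y + d) h5 (by linear_combination d * h2)
  -- values of `g`
  have gx : g x = a * x := hlin x hx1
  have gxw : g (x + w) = a * (x + w) := back x w hx3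
  have gxu : g (x + u) = a * (x + u) := back x u hx2
  have gxuw : g (x + (u + w)) = a * (x + (u + w)) := back x (u + w) hx4
  have gu : g u = a * u := hlin u hu
  have gw : g w = a * w := hlin w hw1
  have gwu : g (w + u) = a * (w + u) := back w u hw2
  -- the cells of the first quadrangle: rows `0, u`, columns `x, x + w`
  have A1 := H 0 x
  have A2 := H 0 (x + w)
  have A3 := H u x
  have A4 := H u (x + w)
  -- the second one
  have B1 := H (a * (x + u + w)) (x + (1 + a) * (x + u + w))
  have B2 := H (a * (x + u + w)) (x + (1 + a) * (x + u + w) + w)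
  have B3 := H (a * (x + u + w) + u) (x + (1 + a) * (x + u + w))
  have B4 := H (a * (x + u + w) + u) (x + (1 + a) * (x + u + w) + w)
  rw [show x - 0 = x by ring, gx] at A1
  rw [show x + w - 0 = x + w by ring, gxw] at A2
  rw [show x - u = x + u by linear_combination -u * h2, gxu] at A3
  rw [show x + w - u = x + (u + w) by linear_combination -u * h2, gxuw] at A4
  rw [show x + (1 + a) * (x + u + w) - a * (x + u + w) = w + u by linear_combination x * h2, gwu] at B1
  rw [show x + (1 + a) * (x + u + w) + w - a * (x + u + w) = u by linear_combination (x + w) * h2, gu] at B2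
  rw [show x + (1 + a) * (x + u + w) - (a * (x + u + w) + u) = w by linear_combination x * h2, gw] at B3
  rw [show x + (1 + a) * (x + u + w) + w - (a * (x + u + w) + u) = 0 by linear_combination (x + w) * h2] at B4
  have C1 : (0 : F) + a * x = a * (x + u + w) + a * (w + u) := by linear_combination -(a * (u + w)) * h2
  have C2 : (0 : F) + a * (x + w) = a * (x + u + w) + a * u := by linear_combination -(a * u) * h2
  have C3 : u + a * (x + u) = a * (x + u + w) + u + a * w := by linear_combination -(a * w) * h2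
  rw [C1, B1] at A1
  rw [C2, B2] at A2
  rw [C3, B3] at A3
  have D : s (u + a * (x + (u + w))) = s (a * (x + u + w) + u + g 0) := by
    rw [A4, B4]
    have e1 : r u * c (x + w) = (r u * c x) * (r 0 * c x)⁻¹ * (r 0 * c (x + w)) := by group
    have e2 : r (a * (x + u + w) + u) * c (x + (1 + a) * (x + u + w) + w) =
        (r (a * (x + u + w) + u) * c (x + (1 + a) * (x + u + w))) *
          (r (a * (x + u + w)) * c (x + (1 + a) * (x + u + w)))⁻¹ *
          (r (a * (x + u + w)) * c (x + (1 + a) * (x + u + w) + w)) := by group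
    rw [e1, e2, A1, A2, A3]
  have E := s.injective D
  apply h0
  linear_combination -E

/-- parity -/
theorem par (h2 : (2 : F) = 0) (p : ℤ) : (p : F) = 0 ∨ (p : F) = 1 := by
  rcases Int.emod_two_eq_zero_or_one p with h | h
  · left
    obtain ⟨m, rfl⟩ : (2 : ℤ) ∣ p := Int.dvd_of_emod_eq_zero h
    push_cast
    rw [h2, zero_mul]
  · right
    obtain ⟨m, hm⟩ : (2 : ℤ) ∣ p - 1 := Int.dvd_of_emod_eq_zero (by omega)
    have h3 : p = 2 * m + 1 := by omega
    rw [h3]
    push_cast
    rw [h2, zero_mul, zero_add]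

/-- the exceptional points -/
def pts (a : F) : List F := [0, a, a ^ 2, a ^ 3, a + a ^ 2, a + a ^ 3, a ^ 2 + a ^ 3, a + a ^ 2 + a ^ 3, 1, 1 + a, 1 + a ^ 2,
  1 + a + a ^ 2]

theorem V_pts (h2 : (2 : F) = 0) {a x : F} (h : V a x) : x ∈ pts a := by
  obtain ⟨p, q, r, rfl⟩ := h
  rcases par (F := F) h2 p with hp | hp <;> rcases par (F := F) h2 q with hq | hq <;> rcases par (F := F) h2 r with hr | hr <;>
    simp [hp, hq, hr, pts]

theorem V_pts' (h2 : (2 : F) = 0) {a x : F} (ha : a ≠ 0) (h : V a (a * x)) : x ∈ pts a := by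
  obtain ⟨p, q, r, h3⟩ := h
  have h4 : x = p + q * a + r * a ^ 2 := by
    apply mul_left_cancel₀ ha
    rw [h3]
    ring
  rw [h4]
  rcases par (F := F) h2 p with hp | hp <;> rcases par (F := F) h2 q with hq | hq <;> rcases par (F := F) h2 r with hr | hr <;>
    simp [hp, hq, hr, pts]

theorem f_lin (h2 : (2 : F) = 0) {a x : F} (ha : a ≠ 0) (h : x ∉ pts a) : f a x = a * x := by
  have h1 : ¬ V a x := fun h3 => h (V_pts h2 h3)
  have h4 : ¬ V a (a * x) := fun h3 => h (V_pts' h2 ha h3)
  unfold f
  have h5 : th a x = x := by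
    unfold th
    rw [if_neg h1]
  rw [h5]
  unfold th
  rw [if_neg h4]

theorem f_not_group [Fintype F] (h2 : (2 : F) = 0) {a : F} (ha : a ≠ 0) (ha1 : a ≠ 1) (h64 : 64 ≤ Fintype.card F) :
    ¬ ∃ (G : Type) (_ : Group G) (r c s : F ≃ G), ∀ i j : F, s (i + f a (j - i)) = r i * c j := by
  classical
  refine not_group h2 (a := a) (f a) (pts a).toFinset ?_ h64 ?_ (f_zero_ne h2 ha ha1)
  · exact (List.toFinset_card_le _).trans (by simp [pts])
  · intro x hx
    exact f_lin h2 ha (fun h => hx (List.mem_toFinset.2 h))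

end Pool.Agent.H72.PT
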