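import Pool.Agent.H72.PT.Grp

/-! # D-type latin squares of order `2 ^ k` (MP_2f0703_co): transport to `Fin (2 ^ k)` -/

set_option autoImplicit false

namespace Pool.Agent.H72.PT

theorem transport {F : Type} [Field F] [Fintype F] {n : ℕ} (h2 : (2 : F) = 0) (hcard : Fintype.card F = n)
    (g : F → F) (c0 : F) (hfix : g c0 = c0) (g_inj : ∀ x y, g x = g y → x = y)
    (diff_inj : ∀ x y, g x + x = g y + y → x = y) (diff2_inj : ∀ x y, g (g x) + x = g (g y) + y → x = y)
    (hreach : ∀ x y, x ≠ c0 → y ≠ c0 → ∃ m : ℕ, g^[m] x = y)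
    (hng : ¬ ∃ (G : Type) (_ : Group G) (r c s : F ≃ G), ∀ i j : F, s (i + g (j - i)) = r i * c j) :
    ∃ L : Fin n → Equiv.Perm (Fin n), (∀ j : Fin n, Function.Injective (fun i => L i j)) ∧
      (∀ i : Fin n, (∃! x, L i x = x) ∧ ∀ x y, L i x ≠ x → L i y ≠ y → ∃ k : ℕ, ((L i) ^ k) x = y) ∧
      (¬ ∃ (G : Type) (_ : Group G) (r c s : Fin n ≃ G), ∀ i j, s (L i j) = r i * c j) ∧
      ∀ j : Fin n, Function.Injective (fun i => (L i * L i) j) := by
  classical
  let ε : F ≃ Fin n := Fintype.equivFinOfCardEq hcard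
  let P : Equiv.Perm F := Equiv.ofBijective g (Finite.injective_iff_bijective.1 (fun x y h => g_inj x y h))
  have hP : ∀ x, P x = g x := fun x => rfl
  have hPk : ∀ (k : ℕ) (x : F), (P ^ k) x = g^[k] x := by
    intro k
    induction k with
    | zero => intro x; rfl
    | succ k ih =>
      intro x
      rw [pow_succ, Equiv.Perm.mul_apply, ih, Function.iterate_succ_apply, hP]
  let row : F → Equiv.Perm F := fun i => (Equiv.subRight i).trans (P.trans (Equiv.addLeft i))
  let L : Fin n → Equiv.Perm (Fin n) := fun i => (ε.symm.trans (row (ε.symm i))).trans ε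
  have hL : ∀ i x, L i x = ε (ε.symm i + g (ε.symm x - ε.symm i)) := fun i x => rfl
  have hpow : ∀ (i : Fin n) (l : ℕ) (x : Fin n),
      ((L i) ^ l) x = ε (ε.symm i + (P ^ l) (ε.symm x - ε.symm i)) := by
    intro i l
    induction l with
    | zero => intro x; simp
    | succ n ih =>
      intro x
      rw [pow_succ, Equiv.Perm.mul_apply, ih, hL, Equiv.symm_apply_apply, pow_succ, Equiv.Perm.mul_apply, hP,
        add_sub_cancel_left]
  refine ⟨L, ?_, ?_, ?_, ?_⟩
  · intro j i i' hij
    have h1 : L i j = L i' j := hij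
    rw [hL, hL] at h1
    have h3 := ε.injective h1
    have h4 : g (ε.symm j - ε.symm i) + (ε.symm j - ε.symm i) =
        g (ε.symm j - ε.symm i') + (ε.symm j - ε.symm i') := by
      linear_combination h3 - (ε.symm i - ε.symm i') * h2
    have h5 := diff_inj _ _ h4
    exact ε.symm.injective (sub_right_injective h5)
  · intro i
    have fix : ∀ x, L i x = x ↔ x = ε (ε.symm i + c0) := by
      intro x
      rw [hL]
      constructor
      · intro hx
        have h1 : ε.symm i + g (ε.symm x - ε.symm i) = ε.symm x := by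
          apply ε.injective; rw [hx, Equiv.apply_symm_apply]
        have h3 : g (ε.symm x - ε.symm i) + (ε.symm x - ε.symm i) = g c0 + c0 := by
          rw [hfix]
          linear_combination h1 + (ε.symm x - ε.symm i - c0) * h2
        have h4 := diff_inj _ _ h3
        rw [← h4, add_sub_cancel, Equiv.apply_symm_apply]
      · intro hx
        have h1 : ε.symm x = ε.symm i + c0 := by rw [hx, Equiv.symm_apply_apply]
        rw [h1, add_sub_cancel_left, hfix, ← h1, Equiv.apply_symm_apply]
    refine ⟨⟨ε (ε.symm i + c0), (fix _).2 rfl, fun x hx => (fix x).1 hx⟩, ?_⟩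
    intro x y hx hy
    have hx' : ε.symm x - ε.symm i ≠ c0 := fun h0 => hx ((fix x).2 (by
      rw [← h0, add_sub_cancel, Equiv.apply_symm_apply]))
    have hy' : ε.symm y - ε.symm i ≠ c0 := fun h0 => hy ((fix y).2 (by
      rw [← h0, add_sub_cancel, Equiv.apply_symm_apply]))
    obtain ⟨m, hm⟩ := hreach _ _ hx' hy'
    refine ⟨m, ?_⟩
    rw [hpow, hPk, hm, add_sub_cancel, Equiv.apply_symm_apply]
  · rintro ⟨G, hG, r, c', s, H⟩
    refine hng ⟨G, hG, ε.trans r, ε.trans c', ε.trans s, fun i j => ?_⟩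
    have h1 := H (ε i) (ε j)
    rw [hL, Equiv.symm_apply_apply, Equiv.symm_apply_apply] at h1
    exact h1
  · intro j i i' hij
    have h1 : ((L i) ^ 2) j = ((L i') ^ 2) j := by
      rw [pow_two, pow_two]; exact hij
    rw [hpow, hpow] at h1
    have h3 := ε.injective h1
    rw [hPk, hPk] at h3
    have h4 : g (g (ε.symm j - ε.symm i)) + (ε.symm j - ε.symm i) =
        g (g (ε.symm j - ε.symm i')) + (ε.symm j - ε.symm i') := by
      have h6 : ∀ x, g^[2] x = g (g x) := fun x => rfl
      rw [h6, h6] at h3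
      linear_combination h3 - (ε.symm i - ε.symm i') * h2
    have h5 := diff2_inj _ _ h4
    exact ε.symm.injective (sub_right_injective h5)

/-- every `k ≥ 6` -/
theorem six {k : ℕ} (hk : 6 ≤ k) :
    ∃ L : Fin (2 ^ k) → Equiv.Perm (Fin (2 ^ k)), (∀ j : Fin (2 ^ k), Function.Injective (fun i => L i j)) ∧
      (∀ i : Fin (2 ^ k), (∃! x, L i x = x) ∧ ∀ x y, L i x ≠ x → L i y ≠ y → ∃ k : ℕ, ((L i) ^ k) x = y) ∧
      (¬ ∃ (G : Type) (_ : Group G) (r c s : Fin (2 ^ k) ≃ G), ∀ i j, s (L i j) = r i * c j) ∧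
      ∀ j : Fin (2 ^ k), Function.Injective (fun i => (L i * L i) j) := by
  classical
  haveI : Fact (Nat.Prime 2) := ⟨Nat.prime_two⟩
  have hum : k ≠ 0 := by omega
  let F := GaloisField 2 k
  letI : Fintype F := Fintype.ofFinite F
  have hcard : Fintype.card F = 2 ^ k := by
    rw [← Nat.card_eq_fintype_card]
    exact GaloisField.card 2 k hum
  have h2 : (2 : F) = 0 := by
    have := CharP.cast_eq_zero F 2
    exact_mod_cast this
  have h64 : 64 ≤ Fintype.card F := by
    rw [hcard]
    calc 64 = 2 ^ 6 := by norm_num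
      _ ≤ 2 ^ k := Nat.pow_le_pow_right (by norm_num) hk
  obtain ⟨g, hg⟩ := IsCyclic.exists_generator (α := Fˣ)
  have hgen : ∀ x : F, x ≠ 0 → ∃ n : ℕ, (g : F) ^ n = x := by
    intro x hx
    have h1 : Units.mk0 x hx ∈ Submonoid.powers g := by
      rw [(isOfFinOrder_of_finite g).mem_powers_iff_mem_zpowers]
      exact hg _
    obtain ⟨n, hn⟩ := h1
    refine ⟨n, ?_⟩
    have h3 := congrArg (fun u : Fˣ => (u : F)) hn
    simpa using h3
  have ha : (g : F) ≠ 0 := g.ne_zero
  have ha1 : (g : F) ≠ 1 := by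
    intro h1
    obtain ⟨x, hx⟩ := ex_notMem ({0, 1} : Finset F) (lt_of_le_of_lt Finset.card_le_two (by omega))
    simp only [Finset.mem_insert, Finset.mem_singleton, not_or] at hx
    obtain ⟨n, hn⟩ := hgen x hx.1
    rw [h1, one_pow] at hn
    exact hx.2 hn.symm
  exact transport h2 hcard (f (g : F)) (cc (g : F)) (f_fix h2 _) (fun x y h => f_inj h2 ha h)
    (fun x y h => f_add h2 ha1 h) (fun x y h => f_add2 h2 ha1 h) (fun x y hx hy => reach h2 hgen hx hy)
    (f_not_group h2 ha ha1 h64)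

end Pool.Agent.H72.PT
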